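import Pool.Agent.H98.ABCR.Stmts

/-!
# ABCR: the zero estimate
-/

set_option autoImplicit false

namespace Pool.Agent.H98.ABCR

open Finset Polynomial

private theorem nv_hasse (i m : ℕ) (p f : ℝ[X]) (h : p ^ m ∣ f) :
    p ^ (m - i) ∣ hasseDeriv i f := by
  have h1 := pow_sub_dvd_iterate_derivative_of_pow_dvd i h
  have h2 : (Nat.factorial i : ℕ) • hasseDeriv i f = derivative^[i] f := by
    rw [← factorial_smul_hasseDeriv]
    rfl
  rw [← h2] at h1
  have h3 : ((Nat.factorial i : ℕ) • hasseDeriv i f) =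
      C ((Nat.factorial i : ℕ) : ℝ) * hasseDeriv i f := by
    rw [nsmul_eq_mul]
    simp
  rw [h3] at h1
  have h4 : IsUnit (C ((Nat.factorial i : ℕ) : ℝ)) := by
    rw [isUnit_C]
    exact isUnit_iff_ne_zero.2 (by exact_mod_cast Nat.factorial_ne_zero i)
  exact (h4.dvd_mul_left).1 h1

private theorem nv_of_hasse (m : ℕ) (t : ℝ) (g : ℝ[X])
    (h : ∀ i < m, (hasseDeriv i g).eval t = 0) : (X - C t) ^ m ∣ g := by
  rw [X_sub_C_pow_dvd_iff, X_pow_dvd_iff]
  intro d hd
  have := taylor_coeff t g d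
  rw [taylor_apply] at this
  rw [this]
  exact h d hd

private theorem nv_wr {q : ℕ} (hq : 0 < q) (f : Fin q → ℝ[X]) (v : Fin q → ℝ) (a0 : Fin q)
    (hv : v a0 ≠ 0) (p : ℝ[X]) (m : ℕ) (h : p ^ m ∣ ∑ a, C (v a) * f a) :
    p ^ (m - (q - 1)) ∣ wr f := by
  set A : Matrix (Fin q) (Fin q) ℝ[X] := Matrix.of fun i a : Fin q => hasseDeriv (i : ℕ) (f a)
    with hA
  have h1 := Matrix.det_updateCol_sum A a0 (fun a => C (v a))
  have h2 : ∀ i : Fin q, ∃ u : ℝ[X], ∑ a, C (v a) • A i a = p ^ (m - (q - 1)) * u := by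
    intro i
    have h3 : ∑ a, C (v a) • A i a = hasseDeriv (i : ℕ) (∑ a, C (v a) * f a) := by
      rw [map_sum]
      refine Finset.sum_congr rfl fun a _ => ?_
      rw [← smul_eq_C_mul, LinearMap.map_smul, smul_eq_mul, smul_eq_C_mul, hA]
      rfl
    have h4 := nv_hasse i m p _ h
    rw [← h3] at h4
    exact (pow_dvd_pow p (by have := i.2; omega)).trans h4
  choose u hu using h2
  have h5 : (fun k => ∑ a, C (v a) • A k a) = p ^ (m - (q - 1)) • u := by
    funext k
    rw [hu k]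
    rfl
  rw [h5, Matrix.det_updateCol_smul] at h1
  have h6 : p ^ (m - (q - 1)) ∣ C (v a0) * wr f := by
    exact ⟨(A.updateCol a0 u).det, h1.symm⟩
  have h7 : IsUnit (C (v a0)) := isUnit_C.2 (isUnit_iff_ne_zero.2 hv)
  exact (h7.dvd_mul_left).1 h6

private theorem nv_coprime {s t : ℝ} (h : s ≠ t) (m n : ℕ) :
    IsCoprime ((X - C s) ^ m) ((X - C t) ^ n) := by
  apply IsCoprime.pow
  have : IsUnit (C (s - t)) := isUnit_C.2 (isUnit_iff_ne_zero.2 (sub_ne_zero.2 h))
  obtain ⟨u, hu⟩ := this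
  refine ⟨-(C (1 / (s - t))), C (1 / (s - t)), ?_⟩
  have h1 : -(C (1 / (s - t))) * (X - C s) + C (1 / (s - t)) * (X - C t) =
      C (1 / (s - t)) * (C s - C t) := by ring
  rw [h1, ← C_sub, ← C_mul, one_div, inv_mul_cancel₀ (sub_ne_zero.2 h), C_1]

theorem nv_thm (hWNZ : S_WNZ) (hWSP : S_WSP) (hMUL : S_MUL) : S_NV := by
  intro q k n M c P hq hk hc hck hP hdeg hM
  -- degrees
  have hfne : ∀ a, ff k c P a ≠ 0 := by
    intro a
    unfold ff
    exact mul_ne_zero ((expand_ne_zero hk).2 (hP a)) (pow_ne_zero _ X_ne_zero)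
  have hfdeg : ∀ a, (ff k c P a).natDegree = (P a).natDegree * k + c a := by
    intro a
    unfold ff
    rw [natDegree_mul ((expand_ne_zero hk).2 (hP a)) (pow_ne_zero _ X_ne_zero), natDegree_expand,
      natDegree_X_pow]
  have hinj : Function.Injective (fun a => (ff k c P a).natDegree) := by
    intro a b hab
    simp only [hfdeg] at hab
    apply hc
    have h1 : ((P a).natDegree * k + c a) % k = ((P b).natDegree * k + c b) % k := by rw [hab]
    rw [Nat.mul_comm, Nat.mul_add_mod, Nat.mod_eq_of_lt (hck a), Nat.mul_comm, Nat.mul_add_mod,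
      Nat.mod_eq_of_lt (hck b)] at h1
    exact h1
  have hwr : wr (ff k c P) ≠ 0 := hWNZ q _ hfne hinj
  obtain ⟨w, hwd, hw⟩ := hWSP q k n c P hk hdeg
  have hw0 : w ≠ 0 := by
    rintro rfl
    rw [map_zero, mul_zero] at hw
    exact (mul_ne_zero (pow_ne_zero _ X_ne_zero) hwr) hw
  have key : ∀ (t : ℝ) (m : ℕ), t ≠ 0 → (X - C t) ^ m ∣ wr (ff k c P) →
      (X - C (t ^ k)) ^ m ∣ w := by
    intro t m ht hd
    apply hMUL k m w t hk ht hw0
    have h1 : (X - C t) ^ m ∣ X ^ (∑ a, c a) * expand ℝ k w := by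
      rw [← hw]
      exact Dvd.dvd.mul_left hd _
    have h2 : IsCoprime ((X - C t) ^ m) (X ^ (∑ a, c a)) := by
      have := nv_coprime (s := t) (t := 0) ht m (∑ a, c a)
      simpa using this
    exact h2.dvd_of_dvd_mul_left h1
  have h1w : (X - C (1 : ℝ)) ^ (M - (q - 1)) ∣ w := by
    have h1 : (X - C (1 : ℝ)) ^ M ∣ ∑ a, C ((fun _ : Fin q => (1 : ℝ)) a) * ff k c P a := by
      simpa using hM
    have h2 := nv_wr hq (ff k c P) (fun _ => 1) ⟨0, hq⟩ one_ne_zero (X - C 1) M h1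
    have h3 := key 1 _ one_ne_zero h2
    rwa [one_pow] at h3
  have hdeg1 : M - (q - 1) ≤ q * n := by
    have h1 := natDegree_le_of_dvd h1w hw0
    rw [natDegree_pow, natDegree_X_sub_C, mul_one] at h1
    exact h1.trans hwd
  have hfirst : M + 1 ≤ q * (n + 1) := by
    rw [mul_add, mul_one]
    omega
  refine ⟨hfirst, fun t v ht htk hv => ?_⟩
  by_contra hcon
  push Not at hcon
  obtain ⟨a0, ha0⟩ : ∃ a0, v a0 ≠ 0 := by
    by_contra hne
    push Not at hne
    exact hv (funext hne)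
  have hg : (X - C t) ^ (q * n + 2 * q - 1 - M) ∣ ∑ a, C (v a) * ff k c P a := by
    apply nv_of_hasse
    intro i hi
    have h1 := hcon i (by omega)
    have h2 : hasseDeriv i (∑ a, C (v a) * ff k c P a) =
        ∑ a, C (v a) * hasseDeriv i (ff k c P a) := by
      rw [map_sum]
      refine Finset.sum_congr rfl fun a _ => ?_
      rw [← smul_eq_C_mul, LinearMap.map_smul, smul_eq_C_mul]
    rw [h2, eval_finsetSum]
    simpa [eval_mul, eval_C] using h1
  have h2 := nv_wr hq (ff k c P) v a0 ha0 (X - C t) _ hg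
  have h3 := key t _ ht h2
  have h4 : (X - C (t ^ k)) ^ (q * n + 2 * q - 1 - M - (q - 1)) * (X - C (1 : ℝ)) ^ (M - (q - 1)) ∣
      w := (nv_coprime htk _ _).mul_dvd h3 h1w
  have h5 := natDegree_le_of_dvd h4 hw0
  rw [natDegree_mul (pow_ne_zero _ (X_sub_C_ne_zero _)) (pow_ne_zero _ (X_sub_C_ne_zero _)),
    natDegree_pow, natDegree_pow, natDegree_X_sub_C, natDegree_X_sub_C, mul_one, mul_one] at h5
  have h6 := h5.trans hwd
  omega

end Pool.Agent.H98.ABCR
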