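import Pool.Agent.H98.ABCR.Stmts

/-!
# ABCR: sieving one large prime of the radical
-/

set_option autoImplicit false
set_option linter.style.haveILetI false

namespace Pool.Agent.H98.ABCR

open Finset Polynomial

/-- the coordinate divisible by `q` -/
private def siv_t (v : ℕ × ℕ) (q : ℕ) : Fin 3 := if q ∣ v.1 then 0 else if q ∣ v.2 then 1 else 2

private theorem siv_nn_ne {v : ℕ × ℕ} (hv : IsTri v) : nn v ≠ 0 := by
  obtain ⟨h1, h2, -⟩ := hv
  unfold nn
  have := h1.ne'
  have := h2.ne'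
  positivity

private theorem siv_fact {v : ℕ × ℕ} (hv : IsTri v) {q : ℕ} (hq : q ∈ (nn v).primeFactors)
    (s : Fin 3) : (coord v s).factorization q =
      if siv_t v q = s then (nn v).factorization q else 0 := by
  have hqp : q.Prime := Nat.prime_of_mem_primeFactors hq
  have hqd : q ∣ nn v := Nat.dvd_of_mem_primeFactors hq
  have h1 : v.1 ≠ 0 := hv.1.ne'
  have h2 : v.2 ≠ 0 := hv.2.1.ne'
  have h3 : v.1 + v.2 ≠ 0 := by omega
  have hco : ¬ (q ∣ v.1 ∧ q ∣ v.2) := fun h => Nat.Prime.not_coprime_iff_dvd.2 ⟨q, hqp, h⟩ hv.2.2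
  have hE : (nn v).factorization q = v.1.factorization q + v.2.factorization q +
      (v.1 + v.2).factorization q := by
    unfold nn
    rw [Nat.factorization_mul (mul_ne_zero h1 h2) h3, Nat.factorization_mul h1 h2]
    rfl
  have z : ∀ m : ℕ, ¬ q ∣ m → m.factorization q = 0 := fun m hm =>
    Nat.factorization_eq_zero_of_not_dvd hm
  by_cases ha : q ∣ v.1
  · have hb : ¬ q ∣ v.2 := fun h => hco ⟨ha, h⟩
    have hc : ¬ q ∣ v.1 + v.2 := fun h => hb ((Nat.dvd_add_right ha).1 h)
    have ht : siv_t v q = 0 := if_pos ha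
    rw [z _ hb, z _ hc] at hE
    rw [ht, hE]
    fin_cases s
    · simp [coord]
    · simp [coord, z _ hb]
    · simp [coord, z _ hc]
  · by_cases hb : q ∣ v.2
    · have hc : ¬ q ∣ v.1 + v.2 := fun h => ha ((Nat.dvd_add_left hb).1 h)
      have ht : siv_t v q = 1 := by unfold siv_t; rw [if_neg ha, if_pos hb]
      rw [z _ ha, z _ hc] at hE
      rw [ht, hE]
      fin_cases s
      · simp [coord, z _ ha]
      · simp [coord]
      · simp [coord, z _ hc]
    · have ht : siv_t v q = 2 := by unfold siv_t; rw [if_neg ha, if_neg hb]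
      rw [z _ ha, z _ hb] at hE
      rw [ht, hE]
      fin_cases s
      · simp [coord, z _ ha]
      · simp [coord, z _ hb]
      · simp [coord]

private theorem siv_coord {v : ℕ × ℕ} (hv : IsTri v) (s : Fin 3) :
    coord v s = ∏ q ∈ (nn v).primeFactors,
      if siv_t v q = s then q ^ (nn v).factorization q else 1 := by
  have h1 := hv.1
  have h2 := hv.2.1
  have h0 : coord v s ≠ 0 := by
    fin_cases s <;> simp [coord] <;> omega
  have hdvd : coord v s ∣ nn v := by
    fin_cases s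
    · exact ⟨v.2 * (v.1 + v.2), by simp [coord, nn, mul_assoc]⟩
    · exact ⟨v.1 * (v.1 + v.2), by simp [coord, nn]; ring⟩
    · exact ⟨v.1 * v.2, by simp [coord, nn]; ring⟩
  have hsub : (coord v s).factorization.support ⊆ (nn v).primeFactors := by
    rw [Nat.support_factorization]
    exact Nat.primeFactors_mono hdvd (siv_nn_ne hv)
  conv_lhs => rw [← Nat.prod_factorization_pow_eq_self h0]
  rw [Finsupp.prod_of_support_subset _ hsub _ (fun _ _ => pow_zero _)]
  refine Finset.prod_congr rfl fun q hq => ?_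
  rw [siv_fact hv hq s]
  split_ifs <;> simp

private theorem siv_pf {v : ℕ × ℕ} {u p : ℕ} (hu : 0 < u) (hp : p.Prime)
    (hR : RR v = u * p) : (nn v).primeFactors = insert p u.primeFactors := by
  have h1 : (RR v).primeFactors = (nn v).primeFactors := by
    unfold RR rad
    exact Nat.primeFactors_prod fun q hq => Nat.prime_of_mem_primeFactors hq
  rw [← h1, hR, Nat.primeFactors_mul hu.ne' hp.ne_zero, hp.primeFactors]
  rw [Finset.union_comm]
  rfl

/-- the sign of a coordinate in the relation `a + b - c = 0` -/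
private def siv_sg (l : ℕ) (s : Fin 3) : ZMod l := if s = 2 then -1 else 1

private theorem siv_rel (l : ℕ) (v : ℕ × ℕ) (t : Fin 3) :
    siv_sg l t * (coord v t : ZMod l) + siv_sg l (t + 1) * (coord v (t + 1) : ZMod l) +
      siv_sg l (t + 2) * (coord v (t + 2) : ZMod l) = 0 := by
  have e1 : (1 : Fin 3) + 1 = 2 := rfl
  have e2 : (2 : Fin 3) + 1 = 0 := rfl
  have e3 : (1 : Fin 3) + 2 = 0 := rfl
  have e4 : (2 : Fin 3) + 2 = 1 := rfl
  fin_cases t
  · simp [siv_sg, coord]
  · simp [siv_sg, coord, e1, e3]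
  · simp [siv_sg, coord, e2, e4]

/-- the known part of coordinate `s` -/
private def siv_a {u e : ℕ} (κ : Option u.primeFactors → Fin 3 × Fin e) (s : Fin 3) : ℕ :=
  ∏ q : u.primeFactors, if (κ (some q)).1 = s then (q : ℕ) ^ ((κ (some q)).2 : ℕ) else 1

/-- the condition modulo `l` -/
private def siv_Om {u e : ℕ} (κ : Option u.primeFactors → Fin 3 × Fin e) (l m : ℕ) : Prop :=
  (m : ZMod l) ≠ 0 ∧ ∃ z1 z2 z3 : ZMod l, z1 ^ ((l - 1) / e) = 1 ∧ z2 ^ ((l - 1) / e) = 1 ∧
    z3 ^ ((l - 1) / e) = 1 ∧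
    siv_sg l (κ none).1 * siv_a κ (κ none).1 * z1 * (m : ZMod l) ^ ((κ none).2 : ℕ) +
      siv_sg l ((κ none).1 + 1) * siv_a κ ((κ none).1 + 1) * z2 +
      siv_sg l ((κ none).1 + 2) * siv_a κ ((κ none).1 + 2) * z3 = 0

/-- the code of a triple -/
private def siv_code {u e : ℕ} (he : 0 < e) (v : ℕ × ℕ) (p : ℕ) :
    Option u.primeFactors → Fin 3 × Fin e
  | none => (siv_t v p, ⟨(nn v).factorization p % e, Nat.mod_lt _ he⟩)
  | some q => (siv_t v q, ⟨(nn v).factorization q % e, Nat.mod_lt _ he⟩)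

private theorem siv_unit {l e : ℕ} (hl : l.Prime) (hel : e ∣ l - 1) {y : ℕ} (hy : ¬ l ∣ y) (k : ℕ) :
    ((y : ZMod l) ^ (e * k)) ^ ((l - 1) / e) = 1 := by
  haveI : Fact l.Prime := ⟨hl⟩
  have h0 : (y : ZMod l) ≠ 0 := by rwa [Ne, ZMod.natCast_eq_zero_iff]
  have h1 : e * k * ((l - 1) / e) = (l - 1) * k := by
    rw [mul_right_comm, Nat.mul_div_cancel' hel]
  rw [← pow_mul, h1, pow_mul, ZMod.pow_card_sub_one_eq_one h0, one_pow]

private theorem siv_split {l e : ℕ} (y E : ℕ) :
    (y : ZMod l) ^ E = (y : ZMod l) ^ (E % e) * (y : ZMod l) ^ (e * (E / e)) := by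
  rw [← pow_add, Nat.mod_add_div]

private theorem siv_mem {u e l p : ℕ} (he : 0 < e) (hu : 0 < u) (hl : l.Prime) (hel : e ∣ l - 1)
    (hlu : ¬ l ∣ u) (hp : p.Prime) (hpl : p ≠ l) (hpu : ¬ p ∣ u) {v : ℕ × ℕ} (hv : IsTri v)
    (hR : RR v = u * p) : siv_Om (siv_code (u := u) he v p) l p := by
  classical
  haveI : Fact l.Prime := ⟨hl⟩
  have hlp : ¬ l ∣ p := fun h => hpl ((Nat.prime_dvd_prime_iff_eq hl hp).1 h).symm
  have hp0 : (p : ZMod l) ≠ 0 := by rwa [Ne, ZMod.natCast_eq_zero_iff]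
  have hlq : ∀ q : u.primeFactors, ¬ l ∣ (q : ℕ) := fun q h =>
    hlu (h.trans (Nat.dvd_of_mem_primeFactors q.2))
  set κ := siv_code (u := u) he v p with hκ
  -- the power residues
  let Z : Fin 3 → ZMod l := fun s => ∏ q : u.primeFactors,
    if siv_t v q = s then (((q : ℕ) : ZMod l) ^ (e * ((nn v).factorization q / e))) else 1
  have hZ : ∀ s, Z s ^ ((l - 1) / e) = 1 := by
    intro s
    simp only [Z]
    rw [← Finset.prod_pow]
    refine Finset.prod_eq_one fun q _ => ?_
    split_ifs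
    · exact siv_unit hl hel (hlq q) _
    · exact one_pow _
  have hpnot : p ∉ u.primeFactors := fun h => hpu (Nat.dvd_of_mem_primeFactors h)
  have hc : ∀ s, (coord v s : ZMod l) =
      (if siv_t v p = s then (p : ZMod l) ^ (nn v).factorization p else 1) *
        ((siv_a κ s : ℕ) * Z s) := by
    intro s
    rw [siv_coord hv s, siv_pf hu hp hR, Finset.prod_insert hpnot]
    rw [← Finset.prod_coe_sort u.primeFactors]
    push_cast
    congr 1
    simp only [Z, siv_a]
    push_cast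
    rw [← Finset.prod_mul_distrib]
    refine Finset.prod_congr rfl fun q _ => ?_
    have h1 : (κ (some q)).1 = siv_t v q := rfl
    have h2 : ((κ (some q)).2 : ℕ) = (nn v).factorization q % e := rfl
    rw [h1, h2]
    split_ifs
    · exact siv_split _ _
    · rw [one_mul]
  have ht : (κ none).1 = siv_t v p := rfl
  have hx : ((κ none).2 : ℕ) = (nn v).factorization p % e := rfl
  have e1 : ∀ t : Fin 3, t ≠ t + 1 := by decide
  have e2 : ∀ t : Fin 3, t ≠ t + 2 := by decide
  refine ⟨hp0, Z (siv_t v p) * (p : ZMod l) ^ (e * ((nn v).factorization p / e)),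
    Z (siv_t v p + 1), Z (siv_t v p + 2), ?_, hZ _, hZ _, ?_⟩
  · rw [mul_pow, hZ, one_mul]
    exact siv_unit hl hel hlp _
  · have h1 := siv_rel l v (siv_t v p)
    rw [hc, hc, hc, if_pos rfl, if_neg (e1 _), if_neg (e2 _),
      siv_split (e := e) p ((nn v).factorization p)] at h1
    rw [ht, hx]
    rw [← h1]
    ring

private theorem siv_card {u e l : ℕ} (g : ℝ) (hLOC : S_LOC) (hl : l.Prime) (hel : e ∣ l - 1)
    (hlu : ¬ l ∣ u) (κ : Option u.primeFactors → Fin 3 × Fin e)
    (hg : (Nat.gcd ((κ none).2 : ℕ) e : ℝ) ≤ g) [DecidablePred (siv_Om κ l)] :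
    (((range l).filter (siv_Om κ l)).card : ℝ) ≤ (((l - 1) / e : ℕ) : ℝ) ^ 2 * g := by
  classical
  haveI : Fact l.Prime := ⟨hl⟩
  have hsg : ∀ s, siv_sg l s ≠ 0 := by
    intro s
    unfold siv_sg
    split_ifs
    · exact neg_ne_zero.2 one_ne_zero
    · exact one_ne_zero
  have ha : ∀ s, (siv_a κ s : ZMod l) ≠ 0 := by
    intro s
    unfold siv_a
    push_cast
    rw [Finset.prod_ne_zero_iff]
    intro q _
    split_ifs
    · apply pow_ne_zero
      rw [Ne, ZMod.natCast_eq_zero_iff]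
      exact fun h => hlu (h.trans (Nat.dvd_of_mem_primeFactors q.2))
    · exact one_ne_zero
  have h1 := hLOC l e ((l - 1) / e) (κ none).2
    (siv_sg l (κ none).1 * siv_a κ (κ none).1)
    (siv_sg l ((κ none).1 + 1) * siv_a κ ((κ none).1 + 1))
    (siv_sg l ((κ none).1 + 2) * siv_a κ ((κ none).1 + 2)) (Nat.mul_div_cancel' hel).symm
    (mul_ne_zero (hsg _) (ha _)) (mul_ne_zero (hsg _) (ha _)) (mul_ne_zero (hsg _) (ha _))
  have h2 : ((range l).filter (siv_Om κ l)).card ≤
      ((l - 1) / e) ^ 2 * Nat.gcd ((κ none).2 : ℕ) e := by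
    refine le_trans ?_ h1
    refine Finset.card_le_card_of_injOn (fun m : ℕ => (m : ZMod l)) ?_ ?_
    · intro m hm
      rw [Finset.mem_coe, Finset.mem_filter] at hm
      rw [Finset.mem_coe, Finset.mem_filter]
      exact ⟨Finset.mem_univ _, hm.2⟩
    · intro m hm m' hm' h
      rw [Finset.mem_coe, Finset.mem_filter, Finset.mem_range] at hm hm'
      have h3 := (ZMod.natCast_eq_natCast_iff' m m' l).1 h
      rwa [Nat.mod_eq_of_lt hm.1, Nat.mod_eq_of_lt hm'.1] at h3
  have h3 : (((range l).filter (siv_Om κ l)).card : ℝ) ≤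
      (((l - 1) / e : ℕ) : ℝ) ^ 2 * (Nat.gcd ((κ none).2 : ℕ) e : ℝ) := by exact_mod_cast h2
  exact h3.trans (mul_le_mul_of_nonneg_left hg (by positivity))

theorem siv_thm (hLOC : S_LOC) (hCRT : S_CRT) : S_SIV := by
  classical
  intro e u g Y L P he hu hsq hg hL hY hP
  have hL0 : ∀ l ∈ L, (0 : ℝ) < l := fun l hl => by exact_mod_cast (hL l hl).1.pos
  have hY0 : 0 ≤ Y := le_trans (Finset.prod_nonneg fun l hl => (hL0 l hl).le) hY
  have hB0 : 0 ≤ 2 * Y * ∏ l ∈ L, (((l - 1) / e : ℕ) : ℝ) ^ 2 * g / l := by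
    refine mul_nonneg (by positivity) (Finset.prod_nonneg fun l hl => ?_)
    have := hL0 l hl
    positivity
  have hch : ∀ p : ℕ, ∃ v : ℕ × ℕ, p ∈ P → IsTri v ∧ RR v = u * p ∧
      (Nat.gcd ((nn v).factorization p) e : ℝ) ≤ g := by
    intro p
    by_cases hp : p ∈ P
    · obtain ⟨-, -, -, -, v, h⟩ := hP p hp
      exact ⟨v, fun _ => h⟩
    · exact ⟨(0, 0), fun h => absurd h hp⟩
  choose V hV using hch
  let code : ℕ → Option u.primeFactors → Fin 3 × Fin e := fun p => siv_code he (V p) p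
  have hfib : ∀ κ : Option u.primeFactors → Fin 3 × Fin e,
      (((P.filter fun p => code p = κ).card : ℕ) : ℝ) ≤
        2 * Y * ∏ l ∈ L, (((l - 1) / e : ℕ) : ℝ) ^ 2 * g / l := by
    intro κ
    rcases (P.filter fun p => code p = κ).eq_empty_or_nonempty with h0 | ⟨p0, hp0⟩
    · rw [h0, Finset.card_empty, Nat.cast_zero]
      exact hB0
    · rw [Finset.mem_filter] at hp0
      have hgκ : (Nat.gcd ((κ none).2 : ℕ) e : ℝ) ≤ g := by
        rw [← hp0.2]
        have h1 : (((code p0) none).2 : ℕ) = (nn (V p0)).factorization p0 % e := rfl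
        rw [h1, ← Nat.gcd_rec e, Nat.gcd_comm]
        exact (hV p0 hp0.1).2.2
      have h2 := hCRT L (siv_Om κ) (fun l => (((l - 1) / e : ℕ) : ℝ) ^ 2 * g) Y
        (fun l hl => (hL l hl).1)
        (fun l hl => siv_card g hLOC (hL l hl).1 (hL l hl).2.1 (hL l hl).2.2 κ hgκ) hY
      refine le_trans ?_ h2
      have h3 : (P.filter fun p => code p = κ) ⊆
          (Icc 1 ⌊Y⌋₊).filter (fun m => ∀ l ∈ L, siv_Om κ l (m % l)) := by
        intro p hp
        rw [Finset.mem_filter] at hp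
        obtain ⟨hpp, hpY, hpL, hpu, -⟩ := hP p hp.1
        rw [Finset.mem_filter, Finset.mem_Icc]
        refine ⟨⟨hpp.one_le, Nat.le_floor hpY⟩, fun l hl => ?_⟩
        have h4 := siv_mem he hu (hL l hl).1 (hL l hl).2.1 (hL l hl).2.2 hpp
          (fun h => hpL (h ▸ hl)) hpu (hV p hp.1).1 (hV p hp.1).2.1
        have h5 : siv_code he (V p) p = κ := hp.2
        rw [h5] at h4
        unfold siv_Om at h4 ⊢
        rw [ZMod.natCast_mod]
        exact h4
      exact_mod_cast Finset.card_le_card h3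
  have hcard : Fintype.card (Option u.primeFactors → Fin 3 × Fin e) = (3 * e) ^ (om u + 1) := by
    rw [Fintype.card_fun, Fintype.card_prod, Fintype.card_fin, Fintype.card_fin,
      Fintype.card_option, Fintype.card_coe]
    rfl
  have h6 := Finset.card_eq_sum_card_fiberwise (f := code) (s := P) (t := Finset.univ)
    (fun _ _ => Finset.mem_coe.2 (Finset.mem_univ _))
  rw [h6]
  push_cast
  refine (Finset.sum_le_sum fun κ _ => hfib κ).trans ?_
  rw [Finset.sum_const, Finset.card_univ, hcard, nsmul_eq_mul]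
  push_cast
  exact le_rfl

end Pool.Agent.H98.ABCR
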